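import Pool.Agent.Helper29.E3.St2

/-!
# Project E3, module PC1: pieces with a smooth variable
-/

set_option autoImplicit false

namespace Pool.Agent.Helper34.E3

open Finset ArithmeticFunction
open Pool.Agent.Helper29.E3 Pool.Agent.Helper49.PC
open Pool.Agent.Helper48.BK (ex th lz Vz Pz gs nd Apx AdN Sol thd)

/-- the first factor as a sum over `Ioc 0 G` -/
theorem convA {q : ℕ} (X G : ℕ) (hG : G ≤ X) (α : ℕ → ℝ) (hα : ∀ n, G < n → α n = 0)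
    (P : ℕ → Prop) [DecidablePred P] (χ : DirichletCharacter ℂ q) :
    ∑ k ∈ (Ioc 0 X).filter P, ((α k : ℝ) : ℂ) * χ (k : ZMod q) =
      ∑ n ∈ Ioc 0 G, (if P n then ((α n : ℝ) : ℂ) else 0) * χ (n : ZMod q) := by
  rw [Finset.sum_filter]
  have h : ∀ n, (if P n then ((α n : ℝ) : ℂ) * χ (n : ZMod q) else 0) =
      (if P n then ((α n : ℝ) : ℂ) else 0) * χ (n : ZMod q) := by
    intro n
    split_ifs
    · rfl
    · rw [zero_mul]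
  rw [Finset.sum_congr rfl fun n _ => h n]
  symm
  apply Finset.sum_subset
  · intro n hn
    rw [mem_Ioc] at hn ⊢
    omega
  · intro n hn hn'
    rw [mem_Ioc] at hn hn'
    have h1 : G < n := by
      by_contra hcon
      exact hn' ⟨hn.1, by omega⟩
    rw [hα n h1, Complex.ofReal_zero, ite_self, zero_mul]

/-- mean square of the first factor -/
theorem mom (h1 : StMSQ) (h4 : StDVK) (q : ℕ) [NeZero q] (X G : ℕ) (F : ℕ → ℂ) (T : ℝ)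
    (hG : G ≤ X) (hF : ∀ n, ‖F n‖ ≤ T * (n.divisors.card : ℝ)) :
    ∑ χ : DirichletCharacter ℂ q, ‖∑ n ∈ Ioc 0 G, F n * χ (n : ZMod q)‖ ^ 2 ≤
      (T * (G + q) * (1 + Real.log X) ^ 2) ^ 2 := by
  have h := h1 q 0 G F
  rw [zero_add] at h
  have h5 : ∑ n ∈ Ioc 0 G, ‖F n‖ ^ 2 ≤ T ^ 2 * (G * (1 + Real.log G) ^ 3) := by
    have h6 := h4 2 G
    have h7 : (2 : ℕ) ^ 2 - 1 = 3 := by norm_num
    rw [h7] at h6
    calc ∑ n ∈ Ioc 0 G, ‖F n‖ ^ 2 ≤ ∑ n ∈ Ioc 0 G, T ^ 2 * (n.divisors.card : ℝ) ^ 2 := by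
          refine Finset.sum_le_sum fun n _ => ?_
          have := pow_le_pow_left₀ (norm_nonneg _) (hF n) 2
          rw [mul_pow] at this
          exact this
      _ = T ^ 2 * ∑ n ∈ Ioc 0 G, (n.divisors.card : ℝ) ^ 2 := by rw [Finset.mul_sum]
      _ ≤ T ^ 2 * (G * (1 + Real.log G) ^ 3) := by
          exact mul_le_mul_of_nonneg_left h6 (sq_nonneg _)
  have l0 : 0 ≤ Real.log G := Real.log_natCast_nonneg G
  have l1 : Real.log G ≤ Real.log X := by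
    rcases Nat.eq_zero_or_pos G with h0 | h0
    · rw [h0, Nat.cast_zero, Real.log_zero]
      exact Real.log_natCast_nonneg X
    · exact Real.log_le_log (by exact_mod_cast h0) (by exact_mod_cast hG)
  obtain ⟨L, hL⟩ : ∃ L : ℝ, L = 1 + Real.log X := ⟨_, rfl⟩
  rw [← hL]
  have hL1 : 1 ≤ L := by linarith
  have h8 : (1 + Real.log G) ^ 3 ≤ L ^ 3 := pow_le_pow_left₀ (by linarith) (by linarith) 3
  have h9 : L ^ 3 ≤ L ^ 4 := pow_le_pow_right₀ hL1 (by norm_num)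
  have hG0 : (0 : ℝ) ≤ G := Nat.cast_nonneg G
  have hq0 : (0 : ℝ) ≤ q := Nat.cast_nonneg q
  calc ∑ χ : DirichletCharacter ℂ q, ‖∑ n ∈ Ioc 0 G, F n * χ (n : ZMod q)‖ ^ 2
      ≤ (G + q) * ∑ n ∈ Ioc 0 G, ‖F n‖ ^ 2 := h
    _ ≤ (G + q) * (T ^ 2 * ((G + q) * L ^ 4)) := by
        apply mul_le_mul_of_nonneg_left _ (by linarith)
        refine h5.trans ?_
        apply mul_le_mul_of_nonneg_left _ (sq_nonneg _)
        exact mul_le_mul (by linarith) (h8.trans h9) (pow_nonneg (by linarith) 3) (by linarith)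
    _ = (T * (G + q) * L ^ 2) ^ 2 := by ring

/-- the second factor is a character sum over an interval -/
theorem boundB (hP : StPVC) (q : ℕ) [NeZero q] (X : ℕ) (y₀ y₁ : ℝ)
    (χ : DirichletCharacter ℂ q) (hχ : χ ≠ 1) :
    ‖∑ l ∈ (Ioc 0 X).filter (fun l : ℕ => y₀ < (l : ℝ) ∧ (l : ℝ) ≤ y₁),
      ((one1 l : ℝ) : ℂ) * χ (l : ZMod q)‖ ≤
      2 * √(q : ℝ) * (q.divisors.card : ℝ) * (1 + Real.log q) := by
  have hs : (Ioc 0 X).filter (fun l : ℕ => y₀ < (l : ℝ) ∧ (l : ℝ) ≤ y₁) =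
      Ioc ⌊y₀⌋₊ (min X ⌊y₁⌋₊) := by
    ext l
    rw [mem_filter, mem_Ioc, mem_Ioc, le_min_iff]
    constructor
    · rintro ⟨⟨a1, a2⟩, a3, a4⟩
      refine ⟨?_, a2, (Nat.le_floor_iff' (by omega)).2 a4⟩
      exact (Nat.floor_lt' (by omega)).2 a3
    · rintro ⟨a1, a2, a3⟩
      have hl : l ≠ 0 := by omega
      exact ⟨⟨by omega, a2⟩, (Nat.floor_lt' hl).1 a1, (Nat.le_floor_iff' hl).1 a3⟩
  rw [hs]
  have he : ∑ l ∈ Ioc ⌊y₀⌋₊ (min X ⌊y₁⌋₊), ((one1 l : ℝ) : ℂ) * χ (l : ZMod q) =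
      ∑ l ∈ Ioc ⌊y₀⌋₊ (min X ⌊y₁⌋₊), χ (l : ZMod q) := by
    refine Finset.sum_congr rfl fun l hl => ?_
    rw [mem_Ioc] at hl
    have h0 : l ≠ 0 := by omega
    rw [one1, if_neg h0, Complex.ofReal_one, one_mul]
  rw [he]
  exact hP q χ _ _ hχ

theorem hPC1 (hMSQ : StMSQ) (hDVK : StDVK) (hPVC : StPVC) : StPC1 := by
  intro q _ X G α T K K' y₀ y₁ Y 𝓖 S hX hG hT hα hα0 hS hY
  have hLX : 0 ≤ Real.log X := Real.log_natCast_nonneg X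
  have hLq : 0 ≤ Real.log q := Real.log_natCast_nonneg q
  have hG0 : (0 : ℝ) ≤ G := Nat.cast_nonneg G
  have hq0 : (0 : ℝ) ≤ q := Nat.cast_nonneg q
  obtain ⟨R, hR⟩ : ∃ R : ℝ, R = 2 * √(q : ℝ) * (q.divisors.card : ℝ) * (1 + Real.log q) :=
    ⟨_, rfl⟩
  have hR0 : 0 ≤ R := by
    rw [hR]
    positivity
  rw [← hR]
  obtain ⟨M, hM⟩ : ∃ M : ℝ, M = T * (G + q) * (1 + Real.log X) ^ 2 := ⟨_, rfl⟩
  have hM0 : 0 ≤ M := by
    rw [hM]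
    positivity
  rw [← hM]
  have bF : ∀ n : ℕ, ‖(if K < (n : ℝ) ∧ (n : ℝ) ≤ K' then ((α n : ℝ) : ℂ) else 0)‖ ≤
      T * (n.divisors.card : ℝ) := by
    intro n
    split_ifs
    · rw [Complex.norm_real, Real.norm_eq_abs]
      exact hα n
    · rw [norm_zero]
      positivity
  have hm := mom hMSQ hDVK q X G
    (fun n : ℕ => if K < (n : ℝ) ∧ (n : ℝ) ≤ K' then ((α n : ℝ) : ℂ) else 0) T hG bF
  rw [← hM] at hm
  obtain ⟨A, hA⟩ : ∃ A : DirichletCharacter ℂ q → ℝ, A = fun χ =>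
      ‖∑ k ∈ (Ioc 0 X).filter (fun k : ℕ => K < (k : ℝ) ∧ (k : ℝ) ≤ K'),
        ((α k : ℝ) : ℂ) * χ (k : ZMod q)‖ := ⟨_, rfl⟩
  have hA2 : ∑ χ ∈ 𝓖, A χ ^ 2 ≤ M ^ 2 := by
    refine (Finset.sum_le_sum_of_subset_of_nonneg (Finset.subset_univ 𝓖)
      fun _ _ _ => sq_nonneg _).trans ?_
    refine le_trans (le_of_eq ?_) hm
    refine Finset.sum_congr rfl fun χ _ => ?_
    rw [hA]
    show ‖_‖ ^ 2 = ‖_‖ ^ 2
    rw [convA X G hG α hα0 (fun k : ℕ => K < (k : ℝ) ∧ (k : ℝ) ≤ K') χ]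
  have hA3 : √(∑ χ ∈ 𝓖, A χ ^ 2) ≤ M := by
    rw [← Real.sqrt_sq hM0]
    exact Real.sqrt_le_sqrt hA2
  have hS3 : √(∑ χ ∈ 𝓖, S χ ^ 2) ≤ √Y := Real.sqrt_le_sqrt hY
  calc ∑ χ ∈ 𝓖, S χ *
        (‖∑ k ∈ (Ioc 0 X).filter (fun k : ℕ => K < (k : ℝ) ∧ (k : ℝ) ≤ K'),
          ((α k : ℝ) : ℂ) * χ (k : ZMod q)‖ *
        ‖∑ l ∈ (Ioc 0 X).filter (fun l : ℕ => y₀ < (l : ℝ) ∧ (l : ℝ) ≤ y₁),
          ((one1 l : ℝ) : ℂ) * χ (l : ZMod q)‖)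
      ≤ ∑ χ ∈ 𝓖, S χ * (A χ * R) := by
        refine Finset.sum_le_sum fun χ hχ => ?_
        apply mul_le_mul_of_nonneg_left _ (hS χ hχ).2
        rw [hA]
        apply mul_le_mul_of_nonneg_left _ (norm_nonneg _)
        rw [hR]
        exact boundB hPVC q X y₀ y₁ χ (hS χ hχ).1
    _ = (∑ χ ∈ 𝓖, S χ * A χ) * R := by
        rw [Finset.sum_mul]
        exact Finset.sum_congr rfl fun χ _ => by ring
    _ ≤ (√(∑ χ ∈ 𝓖, S χ ^ 2) * √(∑ χ ∈ 𝓖, A χ ^ 2)) * R := by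
        apply mul_le_mul_of_nonneg_right _ hR0
        exact Real.sum_mul_le_sqrt_mul_sqrt 𝓖 S A
    _ ≤ (√Y * M) * R := by
        apply mul_le_mul_of_nonneg_right _ hR0
        exact mul_le_mul hS3 hA3 (Real.sqrt_nonneg _) (Real.sqrt_nonneg _)

end Pool.Agent.Helper34.E3
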